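import Pool.Agent.H66.VU.Upper
import Pool.Agent.H66.VU.Unif

/-!
# Knots of bounded bridge number which are separated by the Vassiliev invariants of order `≤ N`

Starting library `Pool.Agent.H835R2.Knot.Defs`: `Word` (oriented sliced link diagrams: lists of
pieces, each of them a maximum, a minimum or a crossing), `IsKnot`, `crossings`, `IsInvariant v` (`v`
is an invariant of oriented knots), `DegreeLE n v` (`v` is a Vassiliev invariant of order at most
`n`).

New definitions (`Pool.Agent.H66.VG.Sum`, `Pool.Agent.H66.VG.Intr`): `maxima D` (the number of the
local maxima of the diagram `D`; the bridge number of a knot is the minimum of `maxima D` over its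
diagrams), `Additive v` (`v` is additive under connected sum), `Prim K n` (the vector space of the
additive Vassiliev invariants of order at most `n` with values in the field `K`), `primDim K k` (the
dimension of `Prim K (k + 1)` modulo `Prim K k`), `weight K N = ∑ k < N, (k + 1) * primDim K k`.

The theorem: the dimensions are finite. Let `D = weight K N`. For every `B` at most `C_B X ^ D` knots
with diagrams with at most `X` crossings and at most `B` maxima are pairwise separated by the additive
invariants of order at most `N`. On the other hand there are `c > 0` and `C` which do not depend on `B`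
and `X`, such that at least `c X ^ (D - C / B)` knots with diagrams with at most `X` pieces and at most
`B` maxima are pairwise separated by them. So the growth exponent of the knots of bridge number at most
`B` is `D - O(1 / B)`, and for `B ≥ log X` one has at least `c' X ^ D` knots.

Proof of the lower bound. Let `S(X, B)` be the set of the vectors of the values at the knots with at
most `X` pieces and `B` maxima, so that `S(X, B) + S(Y, C) ⊆ S(X + Y, B + C)`. It follows from the
formula for the mixed differences of the values at families of knots with twist regions that the
difference set of `S(X, B)` contains, after a triangular change of coordinates, a box with `c X ^ D`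
elements, for a suitable `B = L`. By Ruzsa's triangle inequality `|A - A| |A| ≤ |A + A| ^ 2`, applied
at the scales `Y, 2 Y, …, 2 ^ t Y`, the number `s` of elements of `S(2 ^ t L Y, 2 ^ t L)` satisfies
`s ≥ (2 ^ t Y / 4) ^ D Y ^ (- D / 2 ^ t)`.

Proof of the upper bound. A diagram with at most `B` maxima consists of at most `2 B` maxima and
minima, for which there are only finitely many possibilities, and of braid words between them. By
the method of Reidemeister and Schreier a braid word with `l` letters is a product of `l` pure braid
words from a finite set and of a braid word from another finite set. The differences with respect to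
the insertion of a pure braid lower the order, so the value at the diagram of an invariant of order
`m` is a sum of `O (X ^ m)` numbers from a finite set. The dimensions are finite because the singular
knots with `k` double points fall into finitely many classes with respect to isotopy and crossing
changes (by the normal forms of flat diagrams of the library).
-/

set_option autoImplicit false

namespace Pool.Agent.Results.MP_31fd3b_gt.BoundedBridgeNumber

open Pool.Agent.H835R2.Knot Pool.Agent.H66.VG Pool.Agent.H66.VU

theorem result (K : Type) [Field K] [CharZero K] (N : ℕ) :
    (∀ k, Module.Finite K (Prim K (k + 1) ⧸ (Prim K k).submoduleOf (Prim K (k + 1)))) ∧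
    (∀ B : ℕ, ∃ C : ℝ, ∀ X : ℕ, 1 ≤ X → ∀ T : Finset Word,
      (∀ D ∈ T, IsKnot D ∧ crossings D ≤ X ∧ maxima D ≤ B) →
      (∀ D ∈ T, ∀ E ∈ T, D ≠ E → ∃ v ∈ Prim K N, v D ≠ v E) →
      (T.card : ℝ) ≤ C * (X : ℝ) ^ weight K N) ∧
    (∃ c C : ℝ, 0 < c ∧ ∀ B X : ℕ, 1 ≤ B → 2 ≤ X → ∃ T : Finset Word,
      (∀ D ∈ T, IsKnot D ∧ D.length ≤ X ∧ maxima D ≤ B) ∧
      (∀ D ∈ T, ∀ E ∈ T, D ≠ E → ∃ v ∈ Prim K N, v D ≠ v E) ∧
      c * (X : ℝ) ^ ((weight K N : ℝ) - C / B) ≤ T.card) := by
  refine ⟨finite_quot K, fun B => ?_, lower_unif K N⟩
  obtain ⟨C, hC⟩ := upper K N B
  refine ⟨C * 2 ^ weight K N, fun X hX T hT hsep => ?_⟩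
  have h1 := hC X T hT hsep
  have h2 : (T.card : ℝ) ≤ C * ((X : ℝ) + 1) ^ weight K N := by exact_mod_cast h1
  refine h2.trans ?_
  rw [mul_assoc, ← mul_pow]
  have hX' : (1 : ℝ) ≤ X := by exact_mod_cast hX
  exact mul_le_mul_of_nonneg_left (pow_le_pow_left₀ (by linarith) (by linarith) _)
    (Nat.cast_nonneg _)

end Pool.Agent.Results.MP_31fd3b_gt.BoundedBridgeNumber
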