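import Pool.Agent.H66.VU.UpperLen

/-!
# How many knots do the Vassiliev invariants of order `≤ N` separate?

Starting library `Pool.Agent.H835R2.Knot.Defs`: `Word` (oriented sliced link diagrams: lists of
pieces, each of them a maximum, a minimum or a crossing), `IsKnot`, `IsInvariant v` (`v` is an
invariant of oriented knots), `DegreeLE n v` (`v` is a Vassiliev invariant of order at most `n`).
The size of a diagram `D` is `D.length`, the number of its crossings, maxima and minima.

New definitions (`Pool.Agent.H66.VG.Sum`, `Pool.Agent.H66.VG.Intr`): `Additive v` (`v` is additive
under connected sum), `Prim K n` (the vector space of the additive Vassiliev invariants of order at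
most `n` with values in the field `K`), `primDim K k` (the dimension of `Prim K (k + 1)` modulo
`Prim K k`), `weight K N = ∑ k < N, (k + 1) * primDim K k`.

The theorem: the dimensions are finite, and the maximal number of knots with diagrams of size at
most `X` which are pairwise separated by the additive invariants of order at most `N` is between
`c X ^ D` and `C X ^ D`, where `D = weight K N`.

Proof of the lower bound. An additive invariant of order `m` which is not of order `m - 1` is not
zero on some singular knot with `m` double points. Inserting powers of full twists at the double
points one gets knots of size `O(Y)`, and a mixed difference of the values at these knots is the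
product of the `m` exponents times the value at the singular knot, while the mixed differences of
the invariants of smaller orders are zero. So the differences of the vectors of the values contain,
after a triangular change of coordinates, a box with `Y ^ D` elements. The set of the vectors of the
values at the knots of size at most `X` satisfies `S(X) + S(Y) ⊆ S(X + Y)`, and Ruzsa's triangle
inequality applied to this set at the scales `X, X / 2, X / 4, …` gives the lower bound.

Proof of the upper bound. By induction on `n - k` the value of an invariant of order `n` at a
singular knot with `k` double points and size `L` has a denominator from a finite set and is at most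
`C L ^ (n - k)`: one crossing change costs a value with one more double point. After `O(L)` crossing
changes all crossings are positive, then an isotopy brings the double points into a standard position
on the right of the diagram, whose size is still `O(L)`, and after `O(L)` further crossing changes
the rest of the diagram is layered (every strand is above the strands which are passed later). The
isotopy class of a layered diagram is determined by its boundary (`lay_front`, by the coherence
theorem of the library for flat diagrams and because every move of flat diagrams is an isotopy of the
layered ones), so that finitely many values remain. The additive invariants of order at most `N` are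
linear combinations of finitely many of them.
-/

set_option autoImplicit false

namespace Pool.Agent.Results.MP_31fd3b_gt.GrowthExponent

open Pool.Agent.H835R2.Knot Pool.Agent.H66.VG Pool.Agent.H66.VU

theorem result (K : Type) [Field K] [CharZero K] (N : ℕ) :
    (∀ k, Module.Finite K (Prim K (k + 1) ⧸ (Prim K k).submoduleOf (Prim K (k + 1)))) ∧
    ∃ c C : ℝ, 0 < c ∧ ∀ X : ℕ, 2 ≤ X →
      (∃ T : Finset Word, (∀ D ∈ T, IsKnot D ∧ D.length ≤ X) ∧
        (∀ D ∈ T, ∀ E ∈ T, D ≠ E → ∃ v ∈ Prim K N, v D ≠ v E) ∧
        c * (X : ℝ) ^ weight K N ≤ T.card) ∧
      (∀ T : Finset Word, (∀ D ∈ T, IsKnot D ∧ D.length ≤ X) →
        (∀ D ∈ T, ∀ E ∈ T, D ≠ E → ∃ v ∈ Prim K N, v D ≠ v E) →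
        (T.card : ℝ) ≤ C * (X : ℝ) ^ weight K N) := by
  obtain ⟨c, hc, hl⟩ := lower_len K N
  obtain ⟨C, hC⟩ := upper_len K N
  refine ⟨finite_quot K, c, C * 2 ^ weight K N, hc, fun X hX => ⟨?_, fun T hT hsep => ?_⟩⟩
  · obtain ⟨T, h1, h2, h3⟩ := hl X hX
    exact ⟨T, h1, h3, h2⟩
  · have h1 := hC X T hT hsep
    have h2 : (T.card : ℝ) ≤ C * ((X : ℝ) + 1) ^ weight K N := by exact_mod_cast h1
    refine h2.trans ?_
    rw [mul_assoc, ← mul_pow]
    have hX' : (2 : ℝ) ≤ X := by exact_mod_cast hX
    exact mul_le_mul_of_nonneg_left (pow_le_pow_left₀ (by linarith) (by linarith) _)
      (Nat.cast_nonneg _)

end Pool.Agent.Results.MP_31fd3b_gt.GrowthExponent
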