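import Pool.Agent.H66.PB.Main

/-!
# How many closed positive 3-braids do the Vassiliev invariants of order `≤ 2 M` separate?

Library definitions. `Pool.Agent.V11208.FT`: `Word n` (braid words on `n + 1` strands, lists of
letters `(i, e)`, `e = true` for the positive crossing `σ_i`), `Link m` (braid words modulo the
braid relations, conjugation and stabilization). `Pool.Agent.N518.KT`: `Knot` (`= Link 1`),
`IsKnot w` (the closure of `w` has one component), `closure w h` (the knot which is the closure),
`DegreeLE N v` (the knot invariant `v` is a Vassiliev invariant of order at most `N`).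

Proof. Let `u = σ₁²`, `v = σ₂²` and let `Δ²` be the full twist. For a product `g` of powers of
iterated commutators `[u^{e_1}, [u^{e_2}, ⋯ [u^{e_{n-1}}, v^{e_n}]]]` with `n = 2, 4, …, 2 M`
entries the element `σ₁ σ₂ Δ^{2m} g` is the element of a positive braid word with `6 m + 2` letters
if `m` is at least the number of the negative letters of `g`, since `σ₁⁻¹ Δ²` and `σ₂⁻¹ Δ²` are
positive and `Δ²` is central. The coefficient of `z ^ n` of the Conway polynomial is changed by a
commutator with `n` entries by a nonzero multiple of the product of the entries (the leading term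
is computed in the group ring of the symmetric group of three letters, library `N518.KT`), and by
commutators with more entries it is not changed. With the entries `(δ, Y, …, Y, 1, …, 1)`,
`1 ≤ δ ≤ Y`, one gets `Y ^ n` different changes.
-/

set_option autoImplicit false

namespace Pool.Agent.Results.MP_31fd3b_gt.PositiveThreeBraids

open Pool.Agent.N518.KT Pool.Agent.V11208.FT

theorem result (M : ℕ) : ∃ K : ℕ, ∀ Y : ℕ, ∃ T : Finset (Word 2),
    (∀ w ∈ T, IsKnot w ∧ (∀ l ∈ w, l.2 = true) ∧ w.length = K * Y + 2) ∧
    T.card = Y ^ (M * (M + 1)) ∧
    ∀ w ∈ T, ∀ w' ∈ T, w ≠ w' → ∃ v : Knot → ℂ, DegreeLE (2 * M) v ∧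
      ∀ (h : IsKnot w) (h' : IsKnot w'), v (closure w h) ≠ v (closure w' h') :=
  Pool.Agent.H66.PB.main M

end Pool.Agent.Results.MP_31fd3b_gt.PositiveThreeBraids
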