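import Pool.Agent.H66.TBG.Main

/-!
# How many two-bridge knots do the Vassiliev invariants of order `≤ N` separate?

Library definitions. `Pool.Agent.H835R2.Knot.Defs`: `Word` (oriented sliced link diagrams),
`IsKnot`, `crossings`, `IsInvariant v`, `DegreeLE n v` (`v` is a Vassiliev invariant of order at
most `n`). `Pool.Agent.K7.H38.TB.Defs`: `twoBridge b` for `b = (b₁, …, b_{2g})` (the four-plat with
`b₁` full twists of the strands `1`, `2`, then `b₂` full twists of the strands `0`, `1`, and so on;
the two-bridge knot `C(2 b₁, -2 b₂, …, -2 b_{2g})`, of genus `g` if all `b_i ≠ 0`),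
`Separated n D E` (some integer valued Vassiliev invariant of order at most `n` has different values
on `D` and `E`).

Proof. By the library, the Conway polynomial of `twoBridge b` and the derivative of its HOMFLY
polynomial at `l = 1` are given by the entries of the alternating product `M` of the matrices
`(1, b_i z; 0, 1)` and `(1, 0; b_i z, 1)`: the coefficient of `z ^ n` in `M₁₁` (`n` even) and, if
`∑ b_i = 0`, in `M₁₂ + M₂₁` (`n` odd) is a Vassiliev invariant of order `n`. The commutator
`[u^{e_1}, [v^{e_2}, [u^{e_3}, ⋯]]]` with `n` entries of the two unipotent matrices `u`, `v` is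
`1 + c_n e_1 ⋯ e_n z ^ n H + ⋯`, where the invariant number `n` of the matrix `H` is `1` and
`c_n` is a power of two. Products of such commutators with `e = (δ_t, Y, …, Y, 1, …, 1)`
(`t` times `Y`), `1 ≤ δ_t ≤ Y`, `t = 0, …, n - 1`, change the invariant number `n` by
`c_n ∑ δ_t Y ^ t`, which takes `Y ^ n` different values, and do not change the invariants of smaller
order. These products are alternating words of a fixed length with nonzero exponents of absolute
value at most `Y`.
-/

set_option autoImplicit false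

namespace Pool.Agent.Results.MP_31fd3b_gt.TwoBridgeGrowth

open Pool.Agent.H835R2.Knot Pool.Agent.K7.H38.TB Pool.Agent.H66.TBG

theorem result (N Y : ℕ) : ∃ T : Finset (List ℤ),
    (∀ b ∈ T, b.length = 2 * ((N - 1) * 2 ^ N) ∧ (∀ x ∈ b, x ≠ 0 ∧ |x| ≤ Y) ∧
      IsKnot (twoBridge b) ∧ crossings (twoBridge b) ≤ 4 * ((N - 1) * 2 ^ N) * Y) ∧
    T.card = Y ^ (N * (N + 1) / 2 - 1) ∧
    ∀ b ∈ T, ∀ c ∈ T, b ≠ c → Separated N (twoBridge b) (twoBridge c) := by
  obtain ⟨T, h1, h2, h3⟩ := main N Y
  rw [sum_genus] at h1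
  rw [sum_orders] at h2
  refine ⟨T, fun b hb => ?_, h2, h3⟩
  obtain ⟨h4, h5⟩ := h1 b hb
  refine ⟨h4, h5, isKnot_twoBridge b, ?_⟩
  have h6 := crossings_twoBridge b (y := Y) fun x hx => (h5 x hx).2
  rw [h4] at h6
  have h7 : (crossings (twoBridge b) : ℤ) ≤ ((4 * ((N - 1) * 2 ^ N) * Y : ℕ) : ℤ) := by
    refine h6.trans (le_of_eq ?_)
    push_cast
    ring
  exact_mod_cast h7

end Pool.Agent.Results.MP_31fd3b_gt.TwoBridgeGrowth
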